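import Pool.Agent.Q129.Cog.Defs
import Pool.Agent.Q129.Cog.Data

/-! Kernel checks for the graph on 181 vertices. -/

set_option autoImplicit false

namespace Q129.Cog

/-- adjacency as a Boolean -/
def adjB (u v : ℕ) : Bool := Nat.beq ((MAT >>> (181 * u + v)) % 2) 1

/-- first coordinate -/
def xc (i : ℕ) : ℕ := (XN >>> (11 * i)) % 2048

/-- second coordinate -/
def yc (i : ℕ) : ℕ := (YN >>> (11 * i)) % 2048

/-- colour of the proper 3-colouring -/
def c3 (i : ℕ) : ℕ := (C3 >>> (2 * i)) % 4

/-- `e` is the edge `u v` with its coordinates -/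
def isE (u v : ℕ) (e : ℕ × ℕ × ℕ × ℕ × ℕ × ℕ) : Bool :=
  match e with
  | (a, b, ax, ay, bx, yb) => Nat.beq a u && Nat.beq b v && Nat.beq ax (xc u) &&
      Nat.beq ay (yc u) && Nat.beq bx (xc v) && Nat.beq yb (yc v)

theorem adj_symm_irrefl : (List.range 181).all (fun u => !adjB u u &&
    (List.range u).all (fun v => adjB u v == adjB v u)) = true := by
  decide +kernel

theorem adj_data : (List.range 181).all (fun u => (List.range u).all (fun v =>
    !adjB u v || DE.any (isE u v) || DE.any (isE v u))) = true := by
  decide +kernel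

theorem no_triangle : DE.all (fun e => match e with
    | (a, b, _) => (List.range 181).all (fun w => !(adjB w a && adjB w b))) = true := by
  decide +kernel

theorem c3_ok : DE.all (fun e => !Nat.beq (c3 e.1) (c3 e.2.1)) = true := by decide +kernel

theorem c3_lt : (List.range 181).all (fun u => Nat.blt (c3 u) 3) = true := by decide +kernel

/-- the orientation of the triangle `a b c` is positive -/
def pos (ax ay bx yb cx cy : ℕ) : Bool :=
  Nat.blt (ay * bx + yb * cx + cy * ax) (ax * yb + bx * cy + cx * ay)

/-- the orientation of the triangle `a b c` is negative -/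
def neg (ax ay bx yb cx cy : ℕ) : Bool :=
  Nat.blt (ax * yb + bx * cy + cx * ay) (ay * bx + yb * cx + cy * ax)

/-- the points `c`, `d` lie strictly on the same side of the line `a b` -/
def side (ax ay bx yb cx cy dx dy : ℕ) : Bool :=
  (pos ax ay bx yb cx cy && pos ax ay bx yb dx dy) ||
  (neg ax ay bx yb cx cy && neg ax ay bx yb dx dy)

/-- the check for a pair of edges whose left ends come first -/
def okp : ℕ × ℕ × ℕ × ℕ × ℕ × ℕ → ℕ × ℕ × ℕ × ℕ × ℕ × ℕ → Bool
  | (u, v, ax, ay, bx, yb), (x, y, cx, cy, dx, dy) =>
    Nat.blt bx cx || Nat.blt dx ax ||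
    Nat.beq u x || Nat.beq u y || Nat.beq v x || Nat.beq v y ||
      side ax ay bx yb cx cy dx dy || side cx cy dx dy ax ay bx yb

/-- the check for an edge and a vertex -/
def okv (e : ℕ × ℕ × ℕ × ℕ × ℕ × ℕ) (w : ℕ) : Bool :=
  match e with
  | (u, v, ax, ay, bx, yb) =>
    let cx := xc w
    Nat.blt cx ax || Nat.blt bx cx ||
    Nat.beq u w || Nat.beq v w || pos ax ay bx yb cx (yc w) || neg ax ay bx yb cx (yc w)

/-- all pairs from a list -/
def allPairs {α : Type} (r : α → α → Bool) : List α → Bool
  | [] => true
  | a :: l => l.all (r a) && allPairs r l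

theorem left_first : DE.all (fun e => match e with
    | (_, _, ax, _, bx, _) => Nat.ble ax bx) = true := by decide +kernel

theorem pairs_ok : allPairs okp DE = true := by decide +kernel

theorem verts_ok : DE.all (fun e => (List.range 181).all (fun w => okv e w)) = true := by
  decide +kernel

theorem coord_inj : allPairs (fun a b => !Nat.beq a b)
    ((List.range 181).map (fun u => 2048 * xc u + yc u)) = true := by
  decide +kernel

end Q129.Cog
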