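import Mathlib

/-! Straight-line plane drawings and the cograph chromatic number. -/

set_option autoImplicit false

namespace Q129.Cog

/-- `p` places the vertices of `G` at distinct points of the plane such that the straight-line
segments which represent the edges meet each other and the vertices only in common end points. -/
def IsPlaneDrawing {V : Type} (G : SimpleGraph V) (p : V → ℝ × ℝ) : Prop :=
  Function.Injective p ∧
  (∀ u v w, G.Adj u v → w ≠ u → w ≠ v → p w ∉ segment ℝ (p u) (p v)) ∧
  (∀ u v x y, G.Adj u v → G.Adj x y → u ≠ x → u ≠ y → v ≠ x → v ≠ y →
    Disjoint (segment ℝ (p u) (p v)) (segment ℝ (p x) (p y)))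

/-- a cograph: no induced path on four vertices -/
def IsCograph {V : Type} (G : SimpleGraph V) : Prop :=
  IsEmpty (SimpleGraph.pathGraph 4 ↪g G)

/-- The vertex set of `G` can be partitioned into `k` (possibly empty) sets each of which induces a
cograph. -/
def CographColorable {V : Type} (G : SimpleGraph V) (k : ℕ) : Prop :=
  ∃ f : V → Fin k, ∀ i : Fin k, IsCograph (G.induce {v | f v = i})

/-- the `c`-chromatic number: the least `k` such that the vertex set can be partitioned into `k`
sets each of which induces a cograph -/
noncomputable def cNumber {V : Type} (G : SimpleGraph V) : ℕ :=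
  sInf {k | CographColorable G k}

end Q129.Cog
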