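import Pool.Agent.Q129.Cog.Check

/-! The graph on 181 vertices and its properties. -/

set_option autoImplicit false

namespace Q129.Cog

theorem adj_irrefl' (u : ℕ) (hu : u < 181) : adjB u u = false := by
  have h := adj_symm_irrefl
  rw [List.all_eq_true] at h
  have h1 := h u (List.mem_range.2 hu)
  rw [Bool.and_eq_true] at h1
  simpa using h1.1

theorem adj_symm' (u v : ℕ) (hu : u < 181) (hv : v < 181) : adjB u v = adjB v u := by
  have h := adj_symm_irrefl
  rw [List.all_eq_true] at h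
  rcases lt_trichotomy u v with hlt | rfl | hlt
  · have h1 := h v (List.mem_range.2 hv)
    rw [Bool.and_eq_true, List.all_eq_true] at h1
    have h2 := h1.2 u (List.mem_range.2 hlt)
    rw [beq_iff_eq] at h2
    exact h2.symm
  · rfl
  · have h1 := h u (List.mem_range.2 hu)
    rw [Bool.and_eq_true, List.all_eq_true] at h1
    have h2 := h1.2 v (List.mem_range.2 hlt)
    rw [beq_iff_eq] at h2
    exact h2

theorem isE_spec {u v : ℕ} (h : DE.any (isE u v) = true) :
    (u, v, xc u, yc u, xc v, yc v) ∈ DE := by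
  rw [List.any_eq_true] at h
  obtain ⟨⟨a, b, ax, ay, bx, yb⟩, he, h⟩ := h
  simp only [isE, Bool.and_eq_true, Nat.beq_eq] at h
  obtain ⟨⟨⟨⟨⟨rfl, rfl⟩, rfl⟩, rfl⟩, rfl⟩, rfl⟩ := h
  exact he

theorem adj_data' (u v : ℕ) (hu : u < 181) (hv : v < 181) (huv : adjB u v = true) :
    (u, v, xc u, yc u, xc v, yc v) ∈ DE ∨ (v, u, xc v, yc v, xc u, yc u) ∈ DE := by
  have h := adj_data
  rw [List.all_eq_true] at h
  rcases lt_trichotomy u v with hlt | rfl | hlt
  · have h1 := h v (List.mem_range.2 hv)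
    rw [List.all_eq_true] at h1
    have h2 := h1 u (List.mem_range.2 hlt)
    rw [adj_symm' v u hv hu, huv, Bool.or_eq_true, Bool.or_eq_true] at h2
    rcases h2 with (h2 | h2) | h2
    · exact absurd h2 (by decide)
    · exact Or.inr (isE_spec h2)
    · exact Or.inl (isE_spec h2)
  · rw [adj_irrefl' u hu] at huv
    exact absurd huv (by decide)
  · have h1 := h u (List.mem_range.2 hu)
    rw [List.all_eq_true] at h1
    have h2 := h1 v (List.mem_range.2 hlt)
    rw [huv, Bool.or_eq_true, Bool.or_eq_true] at h2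
    rcases h2 with (h2 | h2) | h2
    · exact absurd h2 (by decide)
    · exact Or.inl (isE_spec h2)
    · exact Or.inr (isE_spec h2)

theorem allPairs_spec {α : Type} {r : α → α → Bool} (hs : ∀ a b, r a b = true → r b a = true) :
    ∀ {l : List α}, allPairs r l = true → ∀ a ∈ l, ∀ b ∈ l, a ≠ b → r a b = true := by
  intro l
  induction l with
  | nil => intro _ a ha; simp at ha
  | cons c l ih =>
    intro h a ha b hb hab
    rw [allPairs, Bool.and_eq_true, List.all_eq_true] at h
    rcases List.mem_cons.1 ha with rfl | ha'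
    · rcases List.mem_cons.1 hb with rfl | hb'
      · exact absurd rfl hab
      · exact h.1 b hb'
    · rcases List.mem_cons.1 hb with rfl | hb'
      · exact hs _ _ (h.1 a ha')
      · exact ih h.2 a ha' b hb' hab

/-- the graph -/
def G : SimpleGraph (Fin 181) where
  Adj u v := adjB u.val v.val = true
  symm := ⟨by
    intro u v h
    rw [adj_symm' _ _ v.isLt u.isLt]
    exact h⟩
  loopless := ⟨by
    intro u h
    rw [adj_irrefl' _ u.isLt] at h
    exact absurd h (by decide)⟩

/-! ### Geometry -/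

/-- the cross product -/
def cr (a b c : ℝ × ℝ) : ℝ := (b.1 - a.1) * (c.2 - a.2) - (b.2 - a.2) * (c.1 - a.1)

theorem cr_segment {a b z : ℝ × ℝ} (h : z ∈ segment ℝ a b) : cr a b z = 0 := by
  obtain ⟨s, t, hs, ht, hst, rfl⟩ := h
  have h1 : s = 1 - t := by linarith
  subst h1
  simp only [cr, Prod.fst_add, Prod.snd_add, Prod.smul_fst, Prod.smul_snd, smul_eq_mul]
  ring

theorem cr_comb {a b c d z : ℝ × ℝ} (h : z ∈ segment ℝ c d) :
    ∃ s t : ℝ, 0 ≤ s ∧ 0 ≤ t ∧ s + t = 1 ∧ cr a b z = s * cr a b c + t * cr a b d := by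
  obtain ⟨s, t, hs, ht, hst, rfl⟩ := h
  refine ⟨s, t, hs, ht, hst, ?_⟩
  have h1 : s = 1 - t := by linarith
  subst h1
  simp only [cr, Prod.fst_add, Prod.snd_add, Prod.smul_fst, Prod.smul_snd, smul_eq_mul]
  ring

theorem disj_pos {a b c d : ℝ × ℝ} (h1 : 0 < cr a b c) (h2 : 0 < cr a b d) :
    Disjoint (segment ℝ a b) (segment ℝ c d) := by
  rw [Set.disjoint_left]
  intro z hz hz'
  have h3 := cr_segment hz
  obtain ⟨s, t, hs, ht, hst, h4⟩ := cr_comb (a := a) (b := b) hz'
  rw [h3] at h4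
  rcases eq_or_lt_of_le hs with h5 | h5
  · have : t = 1 := by linarith
    subst this
    rw [← h5] at h4
    linarith
  · have := mul_pos h5 h1
    have := mul_nonneg ht h2.le
    linarith

theorem disj_neg {a b c d : ℝ × ℝ} (h1 : cr a b c < 0) (h2 : cr a b d < 0) :
    Disjoint (segment ℝ a b) (segment ℝ c d) := by
  rw [Set.disjoint_left]
  intro z hz hz'
  have h3 := cr_segment hz
  obtain ⟨s, t, hs, ht, hst, h4⟩ := cr_comb (a := a) (b := b) hz'
  rw [h3] at h4
  rcases eq_or_lt_of_le hs with h5 | h5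
  · have : t = 1 := by linarith
    subst this
    rw [← h5] at h4
    linarith
  · have := mul_pos_of_neg_of_neg (neg_neg_of_pos h5) h1
    have := mul_nonneg ht (neg_nonneg.2 h2.le)
    nlinarith

/-- a point of the plane with natural coordinates -/
def pt (x y : ℕ) : ℝ × ℝ := ((x : ℝ), (y : ℝ))

theorem pos_spec {ax ay bx yb cx cy : ℕ} (h : pos ax ay bx yb cx cy = true) :
    0 < cr (pt ax ay) (pt bx yb) (pt cx cy) := by
  have h1 : ay * bx + yb * cx + cy * ax < ax * yb + bx * cy + cx * ay := by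
    simpa [pos, Nat.blt_eq] using h
  have h2 : ((ay * bx + yb * cx + cy * ax : ℕ) : ℝ) < ((ax * yb + bx * cy + cx * ay : ℕ) : ℝ) := by
    exact_mod_cast h1
  push_cast at h2
  simp only [cr, pt]
  nlinarith

theorem neg_spec {ax ay bx yb cx cy : ℕ} (h : neg ax ay bx yb cx cy = true) :
    cr (pt ax ay) (pt bx yb) (pt cx cy) < 0 := by
  have h1 : ax * yb + bx * cy + cx * ay < ay * bx + yb * cx + cy * ax := by
    simpa [neg, Nat.blt_eq] using h
  have h2 : ((ax * yb + bx * cy + cx * ay : ℕ) : ℝ) < ((ay * bx + yb * cx + cy * ax : ℕ) : ℝ) := by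
    exact_mod_cast h1
  push_cast at h2
  simp only [cr, pt]
  nlinarith

theorem side_spec {ax ay bx yb cx cy dx dy : ℕ} (h : side ax ay bx yb cx cy dx dy = true) :
    Disjoint (segment ℝ (pt ax ay) (pt bx yb)) (segment ℝ (pt cx cy) (pt dx dy)) := by
  simp only [side, Bool.or_eq_true, Bool.and_eq_true] at h
  rcases h with h | h
  · exact disj_pos (pos_spec h.1) (pos_spec h.2)
  · exact disj_neg (neg_spec h.1) (neg_spec h.2)

/-- the drawing -/
def P (u : Fin 181) : ℝ × ℝ := pt (xc u.val) (yc u.val)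

theorem seg_fst {a b z : ℝ × ℝ} (hab : a.1 ≤ b.1) (h : z ∈ segment ℝ a b) :
    a.1 ≤ z.1 ∧ z.1 ≤ b.1 := by
  obtain ⟨s, t, hs, ht, hst, rfl⟩ := h
  have h1 : s = 1 - t := by linarith
  subst h1
  simp only [Prod.fst_add, Prod.smul_fst, smul_eq_mul]
  constructor <;> nlinarith

theorem left_first' {u v ax ay bx yb : ℕ} (he : (u, v, ax, ay, bx, yb) ∈ DE) : ax ≤ bx := by
  have h := left_first
  rw [List.all_eq_true] at h
  have h1 := h _ he
  exact Nat.le_of_ble_eq_true h1

theorem vert_spec {u v w : ℕ} (he : (u, v, xc u, yc u, xc v, yc v) ∈ DE) (hw : w < 181)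
    (hu : w ≠ u) (hv : w ≠ v) :
    pt (xc w) (yc w) ∉ segment ℝ (pt (xc u) (yc u)) (pt (xc v) (yc v)) := by
  have h := verts_ok
  rw [List.all_eq_true] at h
  have h1 := h _ he
  rw [List.all_eq_true] at h1
  have h2 := h1 w (List.mem_range.2 hw)
  simp only [okv, Bool.or_eq_true, Nat.beq_eq, Nat.blt_eq] at h2
  intro hseg
  have h3 := cr_segment hseg
  have hab : (pt (xc u) (yc u)).1 ≤ (pt (xc v) (yc v)).1 := by
    simp only [pt]
    exact_mod_cast left_first' he
  have h4 := seg_fst hab hseg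
  simp only [pt, Nat.cast_le] at h4
  rcases h2 with ((((h2 | h2) | h2) | h2) | h2) | h2
  · omega
  · omega
  · exact hu h2.symm
  · exact hv h2.symm
  · have := pos_spec h2
    linarith
  · have := neg_spec h2
    linarith

theorem okp_symm : ∀ e f, okp e f = true → okp f e = true := by
  rintro ⟨u, v, ax, ay, bx, yb⟩ ⟨x, y, cx, cy, dx, dy⟩ h
  simp only [okp, Bool.or_eq_true, Nat.beq_eq] at h ⊢
  rcases h with ((((((h | h) | h) | h) | h) | h) | h) | h
  · simp [h]
  · simp [h]
  · simp [h]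
  · simp [h]
  · simp [h]
  · simp [h]
  · simp [h]
  · simp [h]

theorem pair_spec {u v x y : ℕ} (he : (u, v, xc u, yc u, xc v, yc v) ∈ DE)
    (hf : (x, y, xc x, yc x, xc y, yc y) ∈ DE) (h1 : u ≠ x) (h2 : u ≠ y) (h3 : v ≠ x)
    (h4 : v ≠ y) :
    Disjoint (segment ℝ (pt (xc u) (yc u)) (pt (xc v) (yc v)))
      (segment ℝ (pt (xc x) (yc x)) (pt (xc y) (yc y))) := by
  have h6 := allPairs_spec okp_symm pairs_ok _ he _ hf (fun h => h1 (congrArg Prod.fst h))
  have hab : (pt (xc u) (yc u)).1 ≤ (pt (xc v) (yc v)).1 := by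
    simp only [pt]
    exact_mod_cast left_first' he
  have hcd : (pt (xc x) (yc x)).1 ≤ (pt (xc y) (yc y)).1 := by
    simp only [pt]
    exact_mod_cast left_first' hf
  simp only [okp, Bool.or_eq_true, Nat.beq_eq, Nat.blt_eq] at h6
  rcases h6 with ((((((h6 | h6) | h6) | h6) | h6) | h6) | h6) | h6
  · rw [Set.disjoint_left]
    intro z hz hz'
    have i1 := (seg_fst hab hz).2
    have i2 := (seg_fst hcd hz').1
    simp only [pt] at i1 i2
    have i3 : ((xc v : ℕ) : ℝ) < (xc x : ℕ) := by exact_mod_cast h6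
    linarith
  · rw [Set.disjoint_left]
    intro z hz hz'
    have i1 := (seg_fst hab hz).1
    have i2 := (seg_fst hcd hz').2
    simp only [pt] at i1 i2
    have i3 : ((xc y : ℕ) : ℝ) < (xc u : ℕ) := by exact_mod_cast h6
    linarith
  · exact absurd h6 h1
  · exact absurd h6 h2
  · exact absurd h6 h3
  · exact absurd h6 h4
  · exact side_spec h6
  · exact (side_spec h6).symm

theorem edge_data {u v : Fin 181} (h : G.Adj u v) :
    (u.val, v.val, xc u.val, yc u.val, xc v.val, yc v.val) ∈ DE ∨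
      (v.val, u.val, xc v.val, yc v.val, xc u.val, yc u.val) ∈ DE :=
  adj_data' _ _ u.isLt v.isLt h

theorem P_inj : Function.Injective P := by
  intro u v h
  simp only [P, pt, Prod.mk.injEq, Nat.cast_inj] at h
  by_contra hne
  have hne' : u.val ≠ v.val := fun h => hne (Fin.ext h)
  have key : ∀ l : List ℕ, allPairs (fun a b => !Nat.beq a b)
      (l.map (fun u => 2048 * xc u + yc u)) = true → ∀ a ∈ l, ∀ b ∈ l, a ≠ b →
      2048 * xc a + yc a ≠ 2048 * xc b + yc b := by
    intro l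
    induction l with
    | nil => intro _ a ha; simp at ha
    | cons c l ih =>
      intro h a ha b hb hab heq
      rw [List.map_cons, allPairs, Bool.and_eq_true, List.all_eq_true] at h
      rcases List.mem_cons.1 ha with rfl | ha'
      · rcases List.mem_cons.1 hb with rfl | hb'
        · exact hab rfl
        · have := h.1 _ (List.mem_map_of_mem hb')
          rw [heq] at this
          simp at this
      · rcases List.mem_cons.1 hb with rfl | hb'
        · have := h.1 _ (List.mem_map_of_mem ha')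
          rw [heq] at this
          simp at this
        · exact ih h.2 a ha' b hb' hab heq
  exact key _ coord_inj _ (List.mem_range.2 u.isLt) _ (List.mem_range.2 v.isLt) hne'
    (by rw [h.1, h.2])

theorem drawing : IsPlaneDrawing G P := by
  refine ⟨P_inj, ?_, ?_⟩
  · intro u v w huv hwu hwv
    have h1 : w.val ≠ u.val := fun h => hwu (Fin.ext h)
    have h2 : w.val ≠ v.val := fun h => hwv (Fin.ext h)
    rcases edge_data huv with h | h
    · exact vert_spec h w.isLt h1 h2
    · rw [segment_symm]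
      exact vert_spec h w.isLt h2 h1
  · intro u v x y huv hxy h1 h2 h3 h4
    have h1 : u.val ≠ x.val := fun h => h1 (Fin.ext h)
    have h2 : u.val ≠ y.val := fun h => h2 (Fin.ext h)
    have h3 : v.val ≠ x.val := fun h => h3 (Fin.ext h)
    have h4 : v.val ≠ y.val := fun h => h4 (Fin.ext h)
    rcases edge_data huv with h | h <;> rcases edge_data hxy with h' | h'
    · exact pair_spec h h' h1 h2 h3 h4
    · rw [segment_symm ℝ (P x)]
      exact pair_spec h h' h2 h1 h4 h3
    · rw [segment_symm ℝ (P u)]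
      exact pair_spec h h' h3 h4 h1 h2
    · rw [segment_symm ℝ (P x), segment_symm ℝ (P u)]
      exact pair_spec h h' h4 h3 h2 h1

theorem no_tri {u v w : ℕ} (he : (u, v, xc u, yc u, xc v, yc v) ∈ DE) (hw : w < 181)
    (h1 : adjB w u = true) (h2 : adjB w v = true) : False := by
  have h := no_triangle
  rw [List.all_eq_true] at h
  have h3 := h _ he
  simp only [List.all_eq_true, List.mem_range, Bool.not_eq_true', Bool.and_eq_false_iff] at h3
  rcases h3 w hw with h4 | h4
  · rw [h1] at h4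
    exact absurd h4 (by decide)
  · rw [h2] at h4
    exact absurd h4 (by decide)

theorem triangle_free : G.CliqueFree 3 := by
  intro s hs
  obtain ⟨a, b, c, hab, hac, hbc, rfl⟩ := SimpleGraph.is3Clique_iff.1 hs
  rcases edge_data hab with h | h
  · exact no_tri h c.isLt hac.symm hbc.symm
  · exact no_tri h c.isLt hbc.symm hac.symm

theorem c3_ok' {u v : ℕ} (he : (u, v, xc u, yc u, xc v, yc v) ∈ DE) : c3 u ≠ c3 v := by
  have h := c3_ok
  rw [List.all_eq_true] at h
  have h1 := h _ he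
  intro heq
  simp [heq] at h1

theorem c3_lt' {u : ℕ} (hu : u < 181) : c3 u < 3 := by
  have h := c3_lt
  rw [List.all_eq_true] at h
  have h1 := h u (List.mem_range.2 hu)
  rwa [Nat.blt_eq] at h1

/-! ### Three colours suffice -/

theorem cograph_of_indep {V : Type} {H : SimpleGraph V} (h : ∀ u v, ¬ H.Adj u v) :
    IsCograph H := by
  refine ⟨fun φ => ?_⟩
  have h1 : (SimpleGraph.pathGraph 4).Adj 0 1 := by
    rw [SimpleGraph.pathGraph_adj]
    left
    rfl
  exact h _ _ (φ.map_rel_iff.2 h1)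

theorem three : CographColorable G 3 := by
  refine ⟨fun u => ⟨c3 u.val, c3_lt' u.isLt⟩, ?_⟩
  intro i
  apply cograph_of_indep
  rintro ⟨u, hu⟩ ⟨v, hv⟩ hadj
  have huv : G.Adj u v := hadj
  have h1 : c3 u.val = i.val := congrArg Fin.val hu
  have h2 : c3 v.val = i.val := congrArg Fin.val hv
  rcases edge_data huv with h | h
  · exact c3_ok' h (h1.trans h2.symm)
  · exact c3_ok' h (h2.trans h1.symm)

/-! ### Two colours do not suffice -/

/-- vertex `v` of copy `j` of the gadget -/
def phi (j v : ℕ) : ℕ := if v = 0 then rootOf j else 18 * j + v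

/-- `a b d e` is an induced path of the big graph -/
def indP4 (a b d e : ℕ) : Bool :=
  Nat.blt a 181 && Nat.blt b 181 && Nat.blt d 181 && Nat.blt e 181 &&
  adjB a b && adjB b d && adjB d e && !adjB a d && !adjB b e && !adjB a e && !Nat.beq a e

theorem phi_P4 : ∀ j ∈ List.range 10, ∀ q ∈ P4,
    indP4 (phi j q.1) (phi j q.2.1) (phi j q.2.2.1) (phi j q.2.2.2) = true := by decide +kernel

theorem phi_lt : ∀ j ∈ List.range 10, ∀ v ∈ List.range 19, phi j v < 181 := by decide +kernel

/-- values of a colouring of the gadget in which all neighbours of the root differ from it -/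
def vals (b z₂ z₃ z₄ z₅ z₇ z₁₀ z₁₁ z₁₃ z₁₅ z₁₈ : Bool) : List Bool :=
  [b, !b, z₂, z₃, z₄, z₅, !b, z₇, !b, !b, z₁₀, z₁₁, !b, z₁₃, !b, z₁₅, !b, !b, z₁₈]

theorem gadget_check : ∀ b z₂ z₃ z₄ z₅ z₇ z₁₀ z₁₁ z₁₃ z₁₅ z₁₈ : Bool,
    (P4.any fun q =>
      let L := vals b z₂ z₃ z₄ z₅ z₇ z₁₀ z₁₁ z₁₃ z₁₅ z₁₈
      let a := L.getD q.1 false
      (a == L.getD q.2.1 false) && (a == L.getD q.2.2.1 false) &&
        (a == L.getD q.2.2.2 false)) = true := by decide +kernel

theorem P4_lt : ∀ q ∈ P4, q.1 < 19 ∧ q.2.1 < 19 ∧ q.2.2.1 < 19 ∧ q.2.2.2 < 19 := by decide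

/-- the root of the gadget has a neighbour of its own colour -/
theorem gadget (c : ℕ → Bool)
    (h : ∀ q ∈ P4, ¬ (c q.1 = c q.2.1 ∧ c q.1 = c q.2.2.1 ∧ c q.1 = c q.2.2.2)) :
    ∃ y ∈ YS, c y = c 0 := by
  by_contra hcon
  push Not at hcon
  have hy : ∀ y ∈ YS, c y = !(c 0) := by
    intro y hy
    have := hcon y hy
    revert this
    cases c y <;> cases c 0 <;> simp
  have hv : ∀ v < 19, (vals (c 0) (c 2) (c 3) (c 4) (c 5) (c 7) (c 10) (c 11) (c 13) (c 15)
      (c 18)).getD v false = c v := by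
    intro v hv
    have y1 := hy 1 (by decide)
    have y6 := hy 6 (by decide)
    have y8 := hy 8 (by decide)
    have y9 := hy 9 (by decide)
    have y12 := hy 12 (by decide)
    have y14 := hy 14 (by decide)
    have y16 := hy 16 (by decide)
    have y17 := hy 17 (by decide)
    interval_cases v <;> simp [vals, *]
  have hk := gadget_check (c 0) (c 2) (c 3) (c 4) (c 5) (c 7) (c 10) (c 11) (c 13) (c 15) (c 18)
  rw [List.any_eq_true] at hk
  obtain ⟨q, hq, hk⟩ := hk
  obtain ⟨l1, l2, l3, l4⟩ := P4_lt q hq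
  simp only [Bool.and_eq_true, beq_iff_eq, hv _ l1, hv _ l2, hv _ l3, hv _ l4] at hk
  exact h q hq ⟨hk.1.1, hk.1.2, hk.2⟩

theorem final_check : ∀ y₁ ∈ YS, ∀ y₂ ∈ YS, ∀ y₃ ∈ YS, copyAt y₁ ∈ List.range 10 ∧
    phi (copyAt y₁) 0 = y₁ ∧ phi 0 y₁ = y₁ ∧
    indP4 (phi (copyAt y₁) y₃) y₁ 0 (phi 1 y₂) = true := by decide +kernel

/-- every colouring with two colours has a monochromatic induced path -/
theorem mono (c : ℕ → Bool) : ∃ a b d e, indP4 a b d e = true ∧ c a = c b ∧ c a = c d ∧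
    c a = c e := by
  by_contra hcon
  push Not at hcon
  have key : ∀ j ∈ List.range 10, ∃ y ∈ YS, c (phi j y) = c (phi j 0) := by
    intro j hj
    apply gadget (fun v => c (phi j v))
    rintro q hq ⟨e1, e2, e3⟩
    exact hcon _ _ _ _ (phi_P4 j hj q hq) e1 e2 e3
  obtain ⟨y₁, hy₁, k₁⟩ := key 0 (by decide)
  obtain ⟨y₂, hy₂, k₂⟩ := key 1 (by decide)
  obtain ⟨hj, -, hp0, -⟩ := final_check y₁ hy₁ y₂ hy₂ y₂ hy₂
  obtain ⟨y₃, hy₃, k₃⟩ := key (copyAt y₁) hj
  obtain ⟨-, hp1, -, hP⟩ := final_check y₁ hy₁ y₂ hy₂ y₃ hy₃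
  have r0 : phi 0 0 = 0 := by decide
  have r1 : phi 1 0 = 0 := by decide
  rw [hp0, r0] at k₁
  rw [r1] at k₂
  rw [hp1] at k₃
  exact hcon _ _ _ _ hP k₃ (k₃.trans k₁) (k₃.trans (k₁.trans k₂.symm))

theorem not_cograph {V : Type} {H : SimpleGraph V} (a b d e : V) (hab : H.Adj a b)
    (hbd : H.Adj b d) (hde : H.Adj d e) (had : ¬ H.Adj a d) (hbe : ¬ H.Adj b e)
    (hae : ¬ H.Adj a e) (hne : a ≠ e) : ¬ IsCograph H := by
  intro h
  refine h.false ⟨⟨![a, b, d, e], ?_⟩, ?_⟩
  · have n1 := hab.ne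
    have n2 := hbd.ne
    have n3 := hde.ne
    have n4 : a ≠ d := fun h => hae (h ▸ hde)
    have n5 : b ≠ e := fun h => hae (h ▸ hab)
    intro i j hij
    fin_cases i <;> fin_cases j <;> simp_all
  · intro i j
    have had' : ¬ H.Adj d a := fun h => had h.symm
    have hbe' : ¬ H.Adj e b := fun h => hbe h.symm
    have hae' : ¬ H.Adj e a := fun h => hae h.symm
    change H.Adj (![a, b, d, e] i) (![a, b, d, e] j) ↔ _
    rw [SimpleGraph.pathGraph_adj]
    fin_cases i <;> fin_cases j <;>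
      simp [hab, hbd, hde, had, hbe, hae, hab.symm, hbd.symm, hde.symm, had', hbe', hae']

theorem two (k : ℕ) (hk : k ≤ 2) : ¬ CographColorable G k := by
  rintro ⟨f, hf⟩
  classical
  obtain ⟨a, b, d, e, hP, e1, e2, e3⟩ := mono
    (fun n => if h : n < 181 then decide ((f ⟨n, h⟩).val = 0) else false)
  simp only [indP4, Bool.and_eq_true, Bool.not_eq_true', Nat.blt_eq] at hP
  obtain ⟨⟨⟨⟨⟨⟨⟨⟨⟨⟨ha, hb⟩, hd⟩, he⟩, hab⟩, hbd⟩, hde⟩, had⟩, hbe⟩, hae⟩, hne⟩ := hP
  simp only [ha, hb, hd, he, dif_pos] at e1 e2 e3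
  have inj : ∀ i j : Fin k, decide (i.val = 0) = decide (j.val = 0) → i = j := by
    intro i j hij
    rw [decide_eq_decide] at hij
    apply Fin.ext
    have := i.isLt
    have := j.isLt
    omega
  have f1 := inj _ _ e1
  have f2 := inj _ _ e2
  have f3 := inj _ _ e3
  refine not_cograph (H := G.induce {v | f v = f ⟨a, ha⟩}) ⟨⟨a, ha⟩, rfl⟩ ⟨⟨b, hb⟩, f1.symm⟩
    ⟨⟨d, hd⟩, f2.symm⟩ ⟨⟨e, he⟩, f3.symm⟩ hab hbd hde ?_ ?_ ?_ ?_ (hf _)
  · intro h
    have h' : adjB a d = true := h
    rw [had] at h'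
    exact absurd h' (by decide)
  · intro h
    have h' : adjB b e = true := h
    rw [hbe] at h'
    exact absurd h' (by decide)
  · intro h
    have h' : adjB a e = true := h
    rw [hae] at h'
    exact absurd h' (by decide)
  · intro h
    have h1 : a = e := congrArg (fun v => v.1.val) h
    subst h1
    rw [Nat.beq_refl] at hne
    exact absurd hne (by decide)

theorem cNumber_eq : cNumber G = 3 := by
  apply le_antisymm
  · exact Nat.sInf_le three
  · refine le_csInf ⟨3, three⟩ ?_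
    intro k hk
    by_contra hcon
    exact two k (by omega) hk

end Q129.Cog
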